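import Mathlib
import Pool.Agent.SignedBh.Defs
import Pool.Agent.H36SBh.Asymp

/-!
# `σ_±(ℤ_n, h)` for all `h ≤ log n`

`IsBh` and `sigmaPM` are defined in `Pool/Agent/SignedBh/Defs.lean`.
-/

namespace Pool.Agent.Results.MP_f688e9_co.AllRanges

open Pool.Agent.SignedBh Pool.Agent.H36SBh

/-- `σ ≤ h n^(1/h)` for all `n, h ≥ 1`. For all `n` and all `1 ≤ h ≤ log n`: `n^(1/h)/16 ≤ σ` and
`h n^(1/2h)/128 ≤ σ`, so `(2/3) Λ - 5 ≤ log σ ≤ Λ` with `Λ = (log n)/h + log h`; and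
`log σ ~ (log n)/h` when `h loglog n / log n → 0`, `log σ ~ log h` when
`h loglog n / log n → ∞` and `h ≤ log n`. -/
theorem result :
    (∀ n h : ℕ, 1 ≤ n → 1 ≤ h → sigmaPM n h ≤ h * (n : ℝ) ^ (1 / (h : ℝ))) ∧
    (∀ n h : ℕ, 1 ≤ h → (h : ℝ) ≤ Real.log n →
      (n : ℝ) ^ (1 / (h : ℝ)) / 16 ≤ sigmaPM n h ∧
      h * (n : ℝ) ^ (1 / (2 * (h : ℝ))) / 128 ≤ sigmaPM n h ∧
      2 / 3 * (Real.log n / h + Real.log h) - 5 ≤ Real.log (sigmaPM n h) ∧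
      Real.log (sigmaPM n h) ≤ Real.log n / h + Real.log h) ∧
    (∀ ε : ℝ, 0 < ε → ∃ δ : ℝ, 0 < δ ∧ ∃ N : ℕ, ∀ n h : ℕ, N ≤ n → 1 ≤ h →
      (h * Real.log (Real.log n) ≤ δ * Real.log n →
        |Real.log (sigmaPM n h) - Real.log n / h| ≤ ε * (Real.log n / h)) ∧
      (Real.log n ≤ δ * (h * Real.log (Real.log n)) → (h : ℝ) ≤ Real.log n →
        |Real.log (sigmaPM n h) - Real.log h| ≤ ε * Real.log h)) :=
  ⟨fun _ _ hn hh => sigma_le hh hn, fun _ _ hh hn => ⟨le_sigma_one hh hn, le_sigma_two hh hn,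
    exponent hh hn, (log_bounds hh hn).2.2⟩, regimes⟩

end Pool.Agent.Results.MP_f688e9_co.AllRanges
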