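import Mathlib
import Pool.Agent.SignedBh.Defs
import Pool.Agent.SignedBh.Three

/-!
# The exact value of `σ_±(ℤ_n, h)` for `n < (h + 1)(2h² + 4h + 3) / 3`

`IsBh` and `sigmaPM` are defined in `Pool/Agent/SignedBh/Defs.lean`.
-/

namespace Pool.Agent.Results.MP_f688e9_co.ExactSmall

open Pool.Agent.SignedBh

/-- For all `n, h ≥ 1` with `3 n < (h + 1)(2h² + 4h + 3)` the value of `σ_±(ℤ_n, h)` is `0` if
`n ∣ 2h`, it is `2` if `n ≥ (h + 1)²` and (`n` is odd or `h` is even or `n ≥ (h + 1)(h + 2)`), and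
it is `1` otherwise; for all larger `n` it is at least `2`. -/
theorem result (n h : ℕ) (hn : 1 ≤ n) (hh : 1 ≤ h) :
    (3 * n < (h + 1) * (2 * h ^ 2 + 4 * h + 3) →
      sigmaPM n h = if n ∣ 2 * h then 0 else
        if (h + 1) ^ 2 ≤ n ∧ (Odd n ∨ Even h ∨ (h + 1) * (h + 2) ≤ n) then 2 else 1) ∧
    ((h + 1) * (2 * h ^ 2 + 4 * h + 3) ≤ 3 * n → 2 ≤ sigmaPM n h) := by
  have hmain := exact_value (n := n) (h := h) hn hh
  refine ⟨fun hlt => ?_, hmain.2⟩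
  obtain ⟨h0, h1, h2⟩ := hmain.1 hlt
  by_cases hd : n ∣ 2 * h
  · rw [if_pos hd]
    exact h0 hd
  · rw [if_neg hd]
    by_cases hc : (h + 1) ^ 2 ≤ n ∧ (Odd n ∨ Even h ∨ (h + 1) * (h + 2) ≤ n)
    · rw [if_pos hc]
      exact h2 hc
    · rw [if_neg hc]
      exact h1 hd hc

end Pool.Agent.Results.MP_f688e9_co.ExactSmall
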