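import Mathlib
import Pool.Agent.SignedBh.Defs
import Pool.Agent.SBhAs.Lower
import Pool.Agent.SBhAs.Upper
import Pool.Agent.SBhAs.Asymp

/-!
# Signed `B_h` sets in cyclic groups when `h` is large against `log n`

`IsBh` and `sigmaPM` are defined in `Pool/Agent/SignedBh/Defs.lean`.
-/

namespace Pool.Agent.Results.MP_f688e9_co.LogRange

open Pool.Agent.SignedBh Pool.Agent.SBhAs

/-- For all `h ≥ m ≥ 2` and `n ≥ 1`: `σ_±(ℤ_n, h) ≥ m` if `n ≥ (64h/m)^m`, and only if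
`n ≥ (h/m)^m`; and for every `ε > 0` there is `K` such that `|σ_±(ℤ_n, h) - X| ≤ ε X + 1`,
`X = log n / log (h / log n)`, for all `n ≥ 2` and `h ≥ K log n`. -/
theorem result :
    (∀ m n h : ℕ, 2 ≤ m → m ≤ h → 1 ≤ n →
      ((64 * (h : ℝ) / m) ^ m ≤ n → m ≤ sigmaPM n h) ∧
      (m ≤ sigmaPM n h → ((h : ℝ) / m) ^ m ≤ n)) ∧
    (∀ ε : ℝ, 0 < ε → ∃ K : ℝ, 0 < K ∧ ∀ n h : ℕ, 2 ≤ n → K * Real.log n ≤ h →
      |(sigmaPM n h : ℝ) - Real.log n / Real.log (h / Real.log n)| ≤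
        ε * (Real.log n / Real.log (h / Real.log n)) + 1) :=
  ⟨fun _ _ _ hm hh hn => ⟨fun h => upperA (by omega) hh h, fun h => lowerA' hm hn h⟩, asymp⟩

end Pool.Agent.Results.MP_f688e9_co.LogRange
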