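import Mathlib
import Pool.Agent.SignedBh.Defs
import Pool.Agent.SBhAs.Defs
import Pool.Agent.SBhAs.Kappa
import Pool.Agent.SBhAs.Lower
import Pool.Agent.SBhAs.Sharp

/-!
# Sharp thresholds for signed `B_h` sets in all cyclic groups

`IsBh` and `sigmaPM` are defined in `Pool/Agent/SignedBh/Defs.lean`, `MinGe` and `kappa` in
`Pool/Agent/SBhAs/Defs.lean`.
-/

namespace Pool.Agent.Results.MP_f688e9_co.Thresholds

open Pool.Agent.SignedBh Pool.Agent.SBhAs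

/-- For every `m ≥ 2`: `κ_m > 0`; `σ_±(ℤ_n, h) ≥ m` forces `n ≥ 2^(m-1) κ_m (h+1)^m` for all `n`
and `h`; for every `ε > 0` and all sufficiently large `h`, `σ_±(ℤ_n, h) ≥ m` for every
`n ≥ (1+ε) 2^(m-1) κ_m h^m`, and `σ_±(ℤ_n, h) = m` if moreover `n < 2^m κ_(m+1) (h+1)^(m+1)`. -/
theorem result (m : ℕ) (hm : 2 ≤ m) :
    0 < kappa m ∧
    (∀ n h : ℕ, 1 ≤ n → m ≤ sigmaPM n h → 2 ^ (m - 1) * kappa m * ((h : ℝ) + 1) ^ m ≤ n) ∧
    (∀ ε : ℝ, 0 < ε → ∃ H : ℕ, ∀ h n : ℕ, H ≤ h →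
      (1 + ε) * (2 ^ (m - 1) * kappa m * (h : ℝ) ^ m) ≤ n →
      m ≤ sigmaPM n h ∧
      ((n : ℝ) < 2 ^ m * kappa (m + 1) * ((h : ℝ) + 1) ^ (m + 1) → sigmaPM n h = m)) := by
  have hκ : 0 < kappa m := kappa_pos (by omega)
  refine ⟨hκ, fun n h hn hσ => lower hm hn hσ, fun ε hε => ?_⟩
  obtain ⟨H, hH⟩ := sharp hm ε hε
  refine ⟨H + 1, fun h n hh hn => ?_⟩
  have h1 := hH h n (by omega) hn
  refine ⟨h1, fun hlt => le_antisymm ?_ h1⟩
  by_contra hcon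
  have hn1 : 1 ≤ n := by
    have hh1 : (0 : ℝ) < h := by exact_mod_cast (by omega : 0 < h)
    have : (0 : ℝ) < n := lt_of_lt_of_le (by positivity) hn
    exact_mod_cast this
  have h2 := lower (m := m + 1) (by omega) hn1 (by omega : m + 1 ≤ sigmaPM n h)
  rw [Nat.add_sub_cancel] at h2
  linarith

end Pool.Agent.Results.MP_f688e9_co.Thresholds
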